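import Mathlib

set_option autoImplicit false

open MeasureTheory Set Cardinal
open scoped InnerProductSpace

namespace Pool.Agent.Results.MP_de1370_an.NoSetSelector

section Definitions

variable {Ω X : Type} [MeasurableSpace Ω] [NormedAddCommGroup X] [NormedSpace ℝ X]

/-- `f : Ω → X` is scalarly measurable. -/
def ScalarlyMeasurable (f : Ω → X) : Prop :=
  ∀ φ : X →L[ℝ] ℝ, Measurable (fun t => φ (f t))

/-- `F : Ω → 𝒫(X)` is scalarly measurable: `{t | F t ∩ H ≠ ∅}` is measurable for every open half-space `H`. -/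
def ScalarlyMeasurableMulti (F : Ω → Set X) : Prop :=
  ∀ φ : X →L[ℝ] ℝ, φ ≠ 0 → ∀ a : ℝ, MeasurableSet {t | (F t ∩ {x | a < φ x}).Nonempty}

/-- The non-empty convex weakly compact subsets of `X`. -/
def cwk (X : Type) [NormedAddCommGroup X] [NormedSpace ℝ X] : Set (Set X) :=
  {C | C.Nonempty ∧ Convex ℝ C ∧ IsCompact (toWeakSpace ℝ X '' C)}

/-- Property (SC) for the family `𝒞` of subsets of `X`, with respect to the measurable space `Ω`. -/
def PropertySC (Ω X : Type) [MeasurableSpace Ω] [NormedAddCommGroup X] [NormedSpace ℝ X]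
    (𝒞 : Set (Set X)) : Prop :=
  ∃ ψ : Set X → X, (∀ C ∈ 𝒞, ψ C ∈ C) ∧
    ∀ F : Ω → Set X, (∀ t, F t ∈ 𝒞) → ScalarlyMeasurableMulti F → ScalarlyMeasurable (fun t => ψ (F t))

end Definitions

section Main

variable {Ω X ι : Type} [MeasurableSpace Ω] [MeasurableSingletonClass Ω]
  [NormedAddCommGroup X] [InnerProductSpace ℝ X]

/-- simplex spanned by the basis vectors with index in `S` -/
def Cs (e : ι → X) (S : Finset ι) : Set X := convexHull ℝ (e '' (S : Set ι))

lemma Cs_mem (e : ι → X) (S : Finset ι) (hS : S.Nonempty) : Cs e S ∈ cwk X := by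
  refine ⟨?_, convex_convexHull _ _, ?_⟩
  · exact (convexHull_nonempty_iff).mpr (by simpa using hS)
  · have h : IsCompact (Cs e S) := (S.finite_toSet.image e).isCompact_convexHull ℝ
    exact h.image (toWeakSpaceCLM ℝ X).continuous

lemma inner_e (e : ι → X) (he : Orthonormal ℝ e) (i j : ι) [DecidableEq ι] :
    ⟪e i, e j⟫_ℝ = if i = j then 1 else 0 := orthonormal_iff_ite.mp he i j

lemma sum_val [DecidableEq ι] (e : ι → X) (he : Orthonormal ℝ e) (S : Finset ι) (x : X) (hx : x ∈ Cs e S) :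
    ∑ i ∈ S, ⟪e i, x⟫_ℝ = 1 := by
  have h : Cs e S ⊆ {y | ∑ i ∈ S, ⟪e i, y⟫_ℝ = 1} := by
    apply convexHull_min
    · rintro _ ⟨j, hj, rfl⟩
      have hj' : j ∈ S := hj
      simp only [mem_ofPred_eq, inner_e e he]
      rw [Finset.sum_ite_eq' ]
      simp [hj']
    · intro y hy z hz a b ha hb hab
      simp only [mem_ofPred_eq] at *
      simp only [inner_add_right, inner_smul_right, Finset.sum_add_distrib, ← Finset.mul_sum, hy, hz]
      linarith
  exact h hx

lemma countable_supp (e : ι → X) (he : Orthonormal ℝ e) [CompleteSpace X] (φ : X →L[ℝ] ℝ) :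
    {i | φ (e i) ≠ 0}.Countable := by
  set y := (InnerProductSpace.toDual ℝ X).symm φ with hy
  have h1 : ∀ z, φ z = ⟪y, z⟫_ℝ := by
    intro z
    rw [hy, InnerProductSpace.toDual_symm_apply]
  have h2 := (he.inner_products_summable (x := y)).countable_support
  refine h2.mono ?_
  intro i hi
  simp only [mem_ofPred_eq, h1] at hi
  rw [Function.mem_support]
  rw [real_inner_comm] at hi
  simpa using hi

lemma exists_vertex (e : ι → X) (S : Finset ι) (φ : X →L[ℝ] ℝ) (a : ℝ) :
    (Cs e S ∩ {x | a < φ x}).Nonempty ↔ ∃ i ∈ S, a < φ (e i) := by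
  constructor
  · rintro ⟨x, hx, hax⟩
    by_contra hcon
    push Not at hcon
    have h : Cs e S ⊆ {y | φ y ≤ a} := by
      apply convexHull_min
      · rintro _ ⟨j, hj, rfl⟩
        exact hcon j hj
      · exact (convex_halfSpace_le φ.isLinear a)
    have h2 : φ x ≤ a := h hx
    exact absurd h2 (not_le.mpr hax)
  · rintro ⟨i, hi, hai⟩
    exact ⟨e i, subset_convexHull ℝ _ ⟨i, hi, rfl⟩, hai⟩

lemma measF [DecidableEq ι] (e : ι → X) (he : Orthonormal ℝ e) [CompleteSpace X] (α : ι) (T : Ω → Finset ι)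
    (hT : ∀ t, (T t).Nonempty) (hc : ∀ i, {t | i ∈ T t}.Countable) :
    ScalarlyMeasurableMulti (fun t => Cs e (insert α (T t))) := by
  intro φ _ a
  simp only [exists_vertex]
  have hsupp := countable_supp e he φ
  have hbad : {t | ∃ i ∈ T t, φ (e i) ≠ 0}.Countable := by
    have : {t | ∃ i ∈ T t, φ (e i) ≠ 0} = ⋃ i ∈ {i | φ (e i) ≠ 0}, {t | i ∈ T t} := by
      ext t
      simp only [mem_ofPred_eq, mem_iUnion, exists_prop]
      constructor
      · rintro ⟨i, h1, h2⟩; exact ⟨i, h2, h1⟩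
      · rintro ⟨i, h1, h2⟩; exact ⟨i, h2, h1⟩
    rw [this]
    exact hsupp.biUnion (fun i _ => hc i)
  by_cases h : a < φ (e α) ∨ a < 0
  · have h1 : {t | ∃ i ∈ insert α (T t), a < φ (e i)}ᶜ ⊆ {t | ∃ i ∈ T t, φ (e i) ≠ 0} := by
      intro t ht
      simp only [mem_compl_iff, mem_ofPred_eq, not_exists, not_and, not_lt] at ht
      rcases h with h | h
      · exact absurd h (not_lt.mpr (ht α (Finset.mem_insert_self _ _)))
      · obtain ⟨i, hi⟩ := hT t
        refine ⟨i, hi, ?_⟩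
        have := ht i (Finset.mem_insert_of_mem hi)
        intro h0
        rw [h0] at this
        linarith
    have h2 := (hbad.mono h1).measurableSet
    have := h2.compl
    rwa [compl_compl] at this
  · push Not at h
    have h1 : {t | ∃ i ∈ insert α (T t), a < φ (e i)} ⊆ {t | ∃ i ∈ T t, φ (e i) ≠ 0} := by
      rintro t ⟨i, hi, hai⟩
      rw [Finset.mem_insert] at hi
      rcases hi with rfl | hi
      · exact absurd hai (not_lt.mpr h.1)
      · refine ⟨i, hi, ?_⟩
        intro h0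
        rw [h0] at hai
        linarith
    exact (hbad.mono h1).measurableSet

lemma exists_B [Uncountable Ω] (P : Finset ι → Prop) (hP : ∀ T, P T → T.Nonempty)
    (hno : ¬ ∃ T : Ω → Finset ι, (∀ t, P (T t)) ∧ Pairwise (fun s t => Disjoint (T s) (T t))) :
    ∃ B : Set ι, #B < #Ω ∧ ∀ T : Finset ι, P T → ∃ i ∈ T, i ∈ B := by
  classical
  obtain ⟨M, hM⟩ := zorn_subset {M : Set (Finset ι) | (∀ T ∈ M, P T) ∧ M.PairwiseDisjoint id} (by
    intro c hc hchain
    refine ⟨⋃₀ c, ⟨?_, ?_⟩, fun s hs => subset_sUnion_of_mem hs⟩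
    · rintro T ⟨s, hs, hT⟩
      exact (hc hs).1 T hT
    · exact (pairwiseDisjoint_sUnion hchain.directedOn).mpr (fun s hs => (hc hs).2))
  have hM1 := hM.prop
  have hcard : #M < #Ω := by
    by_contra h
    rw [not_lt, Cardinal.le_def] at h
    obtain ⟨f⟩ := h
    apply hno
    refine ⟨fun t => (f t).1, fun t => hM1.1 _ (f t).2, ?_⟩
    intro s t hst
    exact hM1.2 (f s).2 (f t).2 (fun h => hst (f.injective (Subtype.ext h)))
  have hal : ℵ₀ < #Ω := Cardinal.aleph0_lt_mk_iff.mpr inferInstance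
  refine ⟨⋃ T : M, ((T : Finset ι) : Set ι), ?_, ?_⟩
  · calc #(⋃ T : M, ((T : Finset ι) : Set ι)) ≤ #M * ⨆ T : M, #((T : Finset ι) : Set ι) := Cardinal.mk_iUnion_le _
      _ ≤ #M * ℵ₀ := by
          gcongr
          apply ciSup_le'
          intro T
          exact (Cardinal.lt_aleph0_of_finite _).le
      _ < #Ω := Cardinal.mul_lt_of_lt hal.le hcard hal
  · intro T hT
    by_contra hcon
    push Not at hcon
    have hmem : T ∈ M := by
      have h2 : insert T M ∈ {M : Set (Finset ι) | (∀ T ∈ M, P T) ∧ M.PairwiseDisjoint id} := by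
        constructor
        · intro S hS
          rcases mem_insert_iff.mp hS with rfl | hS
          · exact hT
          · exact hM1.1 S hS
        · apply hM1.2.insert
          intro S hS _
          simp only [id]
          rw [Finset.disjoint_left]
          intro i hi hi2
          exact hcon i hi (mem_iUnion.mpr ⟨⟨S, hS⟩, hi2⟩)
      have h3 := hM.le_of_ge h2 (subset_insert T M)
      exact h3 (mem_insert T M)
    obtain ⟨i, hi⟩ := hP T hT
    exact hcon i hi (mem_iUnion.mpr ⟨⟨T, hmem⟩, hi⟩)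

lemma card_U [Uncountable Ω] (S : Set ι) (hS : #S = #Ω) (B : ι → Set ι) (hB : ∀ α ∈ S, #(B α) < #Ω) :
    #((⋃ α : S, B α) ∪ S : Set ι) ≤ #Ω := by
  have hal : ℵ₀ ≤ #Ω := (Cardinal.aleph0_lt_mk_iff.mpr inferInstance).le
  calc #((⋃ α : S, B α) ∪ S : Set ι) ≤ #(⋃ α : S, B α) + #S := Cardinal.mk_union_le _ _
    _ ≤ #S * (⨆ α : S, #(B α)) + #S := by gcongr; exact Cardinal.mk_iUnion_le _
    _ ≤ #Ω * #Ω + #Ω := by
        rw [hS]
        gcongr
        apply ciSup_le'
        intro α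
        exact (hB α α.2).le
    _ = #Ω := by rw [Cardinal.mul_eq_self hal, Cardinal.add_eq_self hal]

lemma exists_not_mem {A B : Set ι} (h : #B < #A) : ∃ x ∈ A, x ∉ B := by
  by_contra hcon
  push Not at hcon
  exact absurd (Cardinal.mk_le_mk_of_subset (show A ⊆ B from hcon)) (not_le.mpr h)

lemma free_pair [Uncountable Ω] (L : Set ι) (hL : #Ω < #L) (B : ι → Set ι) (hB : ∀ α ∈ L, #(B α) < #Ω) :
    ∃ α ∈ L, ∃ β ∈ L, α ≠ β ∧ β ∉ B α ∧ α ∉ B β := by
  obtain ⟨S, hSL, hS⟩ := Cardinal.le_mk_iff_exists_subset.mp hL.le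
  obtain ⟨β, hβ, hβU⟩ := exists_not_mem ((card_U (Ω := Ω) S hS B (fun α hα => hB α (hSL hα))).trans_lt hL)
  obtain ⟨α, hα, hαB⟩ := exists_not_mem (A := S) (B := B β) (by rw [hS]; exact hB β hβ)
  simp only [mem_union, mem_iUnion, not_or, not_exists] at hβU
  refine ⟨α, hSL hα, β, hβ, ?_, hβU.1 ⟨α, hα⟩, hαB⟩
  rintro rfl
  exact hβU.2 hα

lemma free_triple [Uncountable Ω] (L : Set ι) (hL : #Ω < #L) (B : ι → Set ι) (hB : ∀ α ∈ L, #(B α) < #Ω) :
    ∃ α ∈ L, ∃ β ∈ L, ∃ γ ∈ L, α ≠ β ∧ α ≠ γ ∧ β ≠ γ ∧ β ∉ B α ∧ γ ∉ B α ∧ α ∉ B β ∧ γ ∉ B β ∧ α ∉ B γ ∧ β ∉ B γ := by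
  have hal : ℵ₀ ≤ #Ω := (Cardinal.aleph0_lt_mk_iff.mpr inferInstance).le
  obtain ⟨S, hSL, hS⟩ := Cardinal.le_mk_iff_exists_subset.mp hL.le
  have hU := card_U (Ω := Ω) S hS B (fun α hα => hB α (hSL hα))
  set U : Set ι := (⋃ α : S, B α) ∪ S with hUdef
  have hL' : #Ω < #(L \ U : Set ι) := by
    by_contra h
    rw [not_lt] at h
    have h1 : #L ≤ #(L \ U : Set ι) + #U := by
      refine le_trans (Cardinal.mk_le_mk_of_subset (show L ⊆ (L \ U) ∪ U from ?_)) (Cardinal.mk_union_le _ _)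
      intro x hx
      by_cases hxU : x ∈ U
      · exact Or.inr hxU
      · exact Or.inl ⟨hx, hxU⟩
    have h2 : #L ≤ #Ω := h1.trans ((add_le_add h hU).trans (Cardinal.add_eq_self hal).le)
    exact absurd h2 (not_le.mpr hL)
  obtain ⟨β, hβ, γ, hγ, hne, h1, h2⟩ := free_pair (Ω := Ω) (L \ U) hL' B (fun α hα => hB α hα.1)
  obtain ⟨α, hα, hαB⟩ := exists_not_mem (A := S) (B := B β ∪ B γ) (by
    rw [hS]
    exact (Cardinal.mk_union_le _ _).trans_lt (Cardinal.add_lt_of_lt hal (hB β hβ.1) (hB γ hγ.1)))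
  have hβU := hβ.2
  have hγU := hγ.2
  simp only [hUdef, mem_union, mem_iUnion, not_or, not_exists] at hβU hγU hαB
  refine ⟨α, hSL hα, β, hβ.1, γ, hγ.1, ?_, ?_, hne, hβU.1 ⟨α, hα⟩, hγU.1 ⟨α, hα⟩, hαB.1, h1, hαB.2, h2⟩
  · rintro rfl; exact hβU.2 hα
  · rintro rfl; exact hγU.2 hα

theorem not_SC [CompleteSpace X] (e : ι → X) (he : Orthonormal ℝ e) (hcard : #Ω < #ι)
    (N : Set Ω) (hN : ¬ MeasurableSet N) : ¬ PropertySC Ω X (cwk X) := by
  classical
  haveI : Uncountable Ω := by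
    rw [← not_countable_iff]
    intro h
    exact hN (N.to_countable.measurableSet)
  rintro ⟨ψ, hψ1, hψ2⟩
  set val : Finset ι → ι → ℝ := fun S α => ⟪e α, ψ (Cs e S)⟫_ℝ with hval
  have hsum : ∀ S : Finset ι, S.Nonempty → ∑ i ∈ S, val S i = 1 := by
    intro S hS
    exact sum_val e he S _ (hψ1 _ (Cs_mem e S hS))
  -- the two families
  have claimA : ∀ α : ι, ¬ ((∃ T : Ω → Finset ι, (∀ t, (T t).Nonempty ∧ α ∉ T t ∧ val (insert α (T t)) α ≤ 1/3) ∧
        Pairwise (fun s t => Disjoint (T s) (T t))) ∧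
      (∃ T : Ω → Finset ι, (∀ t, (T t).Nonempty ∧ α ∉ T t ∧ 1/2 ≤ val (insert α (T t)) α) ∧
        Pairwise (fun s t => Disjoint (T s) (T t)))) := by
    rintro α ⟨⟨T, hT1, hT2⟩, ⟨T', hT1', hT2'⟩⟩
    set F : Ω → Finset ι := fun t => if t ∈ N then T t else T' t with hF
    have hFne : ∀ t, (F t).Nonempty := by
      intro t
      simp only [hF]
      split_ifs
      · exact (hT1 t).1
      · exact (hT1' t).1
    have hsub : ∀ (T : Ω → Finset ι), Pairwise (fun s t => Disjoint (T s) (T t)) → ∀ i, {t | i ∈ T t}.Countable := by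
      intro T hT i
      apply Set.Subsingleton.countable
      intro s hs t ht
      by_contra hne
      exact Finset.disjoint_left.mp (hT hne) hs ht
    have hFc : ∀ i, {t | i ∈ F t}.Countable := by
      intro i
      refine ((hsub T hT2 i).union (hsub T' hT2' i)).mono ?_
      intro t ht
      simp only [hF, mem_ofPred_eq] at ht
      split_ifs at ht
      · exact Or.inl ht
      · exact Or.inr ht
    have hm := measF e he α F hFne hFc
    have h1 := hψ2 _ (fun t => Cs_mem e _ (Finset.insert_nonempty _ _)) hm (innerSL ℝ (e α))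
    have h2 : MeasurableSet {t | val (insert α (F t)) α ≤ 1/3} := by
      have h3 := h1 (measurableSet_Iic (a := (1/3:ℝ)))
      exact h3
    apply hN
    convert h2 using 1
    ext t
    constructor
    · intro ht
      simp only [mem_ofPred_eq, hF, if_pos ht]
      exact (hT1 t).2.2
    · intro ht
      by_contra htN
      simp only [mem_ofPred_eq, hF, if_neg htN] at ht
      have := (hT1' t).2.2
      linarith
  -- large set
  set L : Set ι := {α | ¬ (∃ T : Ω → Finset ι, (∀ t, (T t).Nonempty ∧ α ∉ T t ∧ val (insert α (T t)) α ≤ 1/3) ∧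
        Pairwise (fun s t => Disjoint (T s) (T t)))} with hLdef
  set H : Set ι := {α | ¬ (∃ T : Ω → Finset ι, (∀ t, (T t).Nonempty ∧ α ∉ T t ∧ 1/2 ≤ val (insert α (T t)) α) ∧
        Pairwise (fun s t => Disjoint (T s) (T t)))} with hHdef
  have hLH : L ∪ H = Set.univ := by
    rw [eq_univ_iff_forall]
    intro α
    by_contra h
    rw [mem_union, not_or] at h
    simp only [hLdef, hHdef, mem_ofPred_eq, not_not] at h
    exact claimA α h
  have hal : ℵ₀ ≤ #Ω := (Cardinal.aleph0_lt_mk_iff.mpr inferInstance).le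
  have hbig : #Ω < #L ∨ #Ω < #H := by
    by_contra h
    rw [not_or, not_lt, not_lt] at h
    have h1 : #ι ≤ #L + #H := by
      rw [← Cardinal.mk_univ, ← hLH]
      exact Cardinal.mk_union_le _ _
    have h2 : #ι ≤ #Ω := h1.trans ((add_le_add h.1 h.2).trans (Cardinal.add_eq_self hal).le)
    exact absurd h2 (not_le.mpr hcard)
  rcases hbig with hL | hH
  · have hB : ∀ α : ι, ∃ B : Set ι, α ∈ L → (#B < #Ω ∧ ∀ T : Finset ι, ((T.Nonempty) ∧ α ∉ T ∧ val (insert α T) α ≤ 1/3) →
        ∃ i ∈ T, i ∈ B) := by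
      intro α
      by_cases hα : α ∈ L
      · obtain ⟨B, hB1, hB2⟩ := exists_B (Ω := Ω) (fun T : Finset ι => (T.Nonempty) ∧ α ∉ T ∧ val (insert α T) α ≤ 1/3)
          (fun T hT => hT.1) hα
        exact ⟨B, fun _ => ⟨hB1, hB2⟩⟩
      · exact ⟨∅, fun h => absurd h hα⟩
    choose B hB using hB
    obtain ⟨α, hα, β, hβ, γ, hγ, n1, n2, n3, m1, m2, m3, m4, m5, m6⟩ := free_triple (Ω := Ω) L hL B (fun α hα => (hB α hα).1)
    have key : ∀ a b c : ι, a ∈ L → a ≠ b → a ≠ c → b ∉ B a → c ∉ B a → 1/3 < val {a, b, c} a := by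
      intro a b c ha hab hac hb hc
      by_contra hcon
      rw [not_lt] at hcon
      obtain ⟨i, hi, hiB⟩ := (hB a ha).2 {b, c} ⟨⟨b, by simp⟩, by simp [hab, hac], hcon⟩
      rw [Finset.mem_insert, Finset.mem_singleton] at hi
      rcases hi with rfl | rfl
      · exact hb hiB
      · exact hc hiB
    have k1 := key α β γ hα n1 n2 m1 m2
    have k2 := key β α γ hβ n1.symm n3 m3 m4
    have k3 := key γ α β hγ n2.symm n3.symm m5 m6
    have e2 : ({β, α, γ} : Finset ι) = {α, β, γ} := by ext x; simp; tauto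
    have e3 : ({γ, α, β} : Finset ι) = {α, β, γ} := by ext x; simp; tauto
    rw [e2] at k2
    rw [e3] at k3
    have hs := hsum {α, β, γ} ⟨α, by simp⟩
    rw [Finset.sum_insert (by simp [n1, n2]), Finset.sum_insert (by simp [n3]), Finset.sum_singleton] at hs
    linarith
  · have hB : ∀ α : ι, ∃ B : Set ι, α ∈ H → (#B < #Ω ∧ ∀ T : Finset ι, ((T.Nonempty) ∧ α ∉ T ∧ 1/2 ≤ val (insert α T) α) →
        ∃ i ∈ T, i ∈ B) := by
      intro α
      by_cases hα : α ∈ H
      · obtain ⟨B, hB1, hB2⟩ := exists_B (Ω := Ω) (fun T : Finset ι => (T.Nonempty) ∧ α ∉ T ∧ 1/2 ≤ val (insert α T) α)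
          (fun T hT => hT.1) hα
        exact ⟨B, fun _ => ⟨hB1, hB2⟩⟩
      · exact ⟨∅, fun h => absurd h hα⟩
    choose B hB using hB
    obtain ⟨α, hα, β, hβ, n1, m1, m2⟩ := free_pair (Ω := Ω) H hH B (fun α hα => (hB α hα).1)
    have key : ∀ a b : ι, a ∈ H → a ≠ b → b ∉ B a → val {a, b} a < 1/2 := by
      intro a b ha hab hb
      by_contra hcon
      rw [not_lt] at hcon
      obtain ⟨i, hi, hiB⟩ := (hB a ha).2 {b} ⟨⟨b, by simp⟩, by simp [hab], hcon⟩
      rw [Finset.mem_singleton] at hi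
      subst hi
      exact hb hiB
    have k1 := key α β hα n1 m1
    have k2 := key β α hβ n1.symm m2
    rw [Finset.pair_comm] at k2
    have hs := hsum {α, β} ⟨α, by simp⟩
    rw [Finset.sum_pair n1] at hs
    linarith

end Main

section Instance

/-- The countable / co-countable σ-algebra on `ℝ`. -/
@[instance_reducible]
def ccSigma : MeasurableSpace ℝ where
  MeasurableSet' s := s.Countable ∨ sᶜ.Countable
  measurableSet_empty := Or.inl countable_empty
  measurableSet_compl s hs := by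
    rcases hs with h | h
    · exact Or.inr (by rwa [compl_compl])
    · exact Or.inl h
  measurableSet_iUnion f hf := by
    by_cases h : ∀ i, (f i).Countable
    · exact Or.inl (countable_iUnion h)
    · push Not at h
      obtain ⟨i, hi⟩ := h
      right
      rcases hf i with h1 | h1
      · exact absurd h1 hi
      · exact h1.mono (compl_subset_compl.mpr (subset_iUnion f i))

lemma ccSigma_le : ccSigma ≤ (inferInstance : MeasurableSpace ℝ) := by
  intro s hs
  rcases hs with h | h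
  · exact h.measurableSet
  · have := h.measurableSet.compl
    rwa [compl_compl] at this

noncomputable def ccMeasure : @Measure ℝ ccSigma := (volume.restrict (Icc (0:ℝ) 1)).trim ccSigma_le

lemma ccMeasure_prob : @IsProbabilityMeasure ℝ ccSigma ccMeasure := by
  constructor
  rw [ccMeasure, trim_measurableSet_eq ccSigma_le (@MeasurableSet.univ ℝ ccSigma), Measure.restrict_apply_univ, Real.volume_Icc]
  simp

lemma ccMeasure_complete : @Measure.IsComplete ℝ ccSigma ccMeasure := by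
  constructor
  intro s hs
  obtain ⟨t, hst, ht, ht0⟩ := @exists_measurable_superset_of_null ℝ ccSigma ccMeasure s hs
  rw [ccMeasure, trim_measurableSet_eq ccSigma_le ht] at ht0
  rcases ht with h | h
  · exact Or.inl (h.mono hst)
  · exfalso
    have h1 : (volume.restrict (Icc (0:ℝ) 1)) tᶜ = 0 := by
      exact h.measure_zero _
    have h2 : (volume.restrict (Icc (0:ℝ) 1)) Set.univ ≤ 0 := by
      rw [← union_compl_self t]
      refine (measure_union_le _ _).trans ?_
      rw [ht0, h1]; simp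
    rw [Measure.restrict_apply_univ, Real.volume_Icc] at h2
    simp at h2

lemma cc_singleton : @MeasurableSingletonClass ℝ ccSigma :=
  @MeasurableSingletonClass.mk ℝ ccSigma (fun x => Or.inl (countable_singleton x))

lemma cc_not : ¬ @MeasurableSet ℝ ccSigma (Iic (0:ℝ)) := by
  rintro (h | h)
  · have := Cardinal.mk_Iic_real 0
    rw [← Cardinal.le_aleph0_iff_set_countable, this] at h
    exact absurd h (not_le.mpr Cardinal.aleph0_lt_continuum)
  · rw [compl_Iic] at h
    have := Cardinal.mk_Ioi_real 0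
    rw [← Cardinal.le_aleph0_iff_set_countable, this] at h
    exact absurd h (not_le.mpr Cardinal.aleph0_lt_continuum)

end Instance

/-- The Hilbert space `ℓ²(ι)` (real). -/
abbrev Hil (ι : Type) : Type := lp (fun _ : ι => ℝ) 2

open Classical in
lemma ortho (ι : Type) : Orthonormal ℝ (fun i : ι => (lp.single 2 i (1:ℝ) : Hil ι)) := by
  rw [orthonormal_iff_ite]
  intro i j
  rw [lp.inner_single_left]
  by_cases h : i = j
  · subst h; simp
  · rw [lp.single_apply_ne _ _ _ h]; simp [h]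

theorem result :
    (∀ (Ω : Type) [MeasurableSpace Ω] [MeasurableSingletonClass Ω],
      (∃ N : Set Ω, ¬ MeasurableSet N) → ¬ PropertySC Ω (Hil (Set Ω)) (cwk (Hil (Set Ω)))) ∧
    (∃ (Ω : Type) (_ : MeasurableSpace Ω) (μ : Measure Ω), IsProbabilityMeasure μ ∧ μ.IsComplete ∧
      ¬ PropertySC Ω (Hil (Set Ω)) (cwk (Hil (Set Ω)))) := by
  have h1 : (∀ (Ω : Type) [MeasurableSpace Ω] [MeasurableSingletonClass Ω],
      (∃ N : Set Ω, ¬ MeasurableSet N) → ¬ PropertySC Ω (Hil (Set Ω)) (cwk (Hil (Set Ω)))) := by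
    intro Ω _ _ ⟨N, hN⟩
    exact not_SC (fun i : Set Ω => (lp.single 2 i (1:ℝ) : Hil (Set Ω))) (ortho (Set Ω))
      (by rw [Cardinal.mk_set]; exact Cardinal.cantor _) N hN
  refine ⟨h1, ⟨ℝ, ccSigma, ccMeasure, ccMeasure_prob, ccMeasure_complete, ?_⟩⟩
  exact @h1 ℝ ccSigma cc_singleton ⟨Iic 0, cc_not⟩

end Pool.Agent.Results.MP_de1370_an.NoSetSelector
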